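import Pool.Agent.Lib.MP_e3e9dd_al.Common

set_option autoImplicit false

namespace Pool.Agent.Results.MP_e3e9dd_al.BasisInvolution

open Pool.Agent.Lib.MP_e3e9dd_al Cardinal

universe u

/-- The involution can be taken to permute the standard basis. -/
theorem aux (X : Type) [Infinite X] :
    ∃ π : Equiv.Perm X, permAut π ≠ 1 ∧ permAut π * permAut π = 1 ∧
      Subgroup.normalClosure ({permAut π} : Set (MulAut (FreeGroup X))) = ⊤ := by
  have hcard : Cardinal.mk (X × ℤ) = Cardinal.mk X := by
    simp [mul_eq_left (aleph0_le_mk X) (aleph0_le_mk X) aleph0_ne_zero]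
  obtain ⟨e0⟩ := Cardinal.eq.1 hcard
  refine ⟨flip e0, ?_, by rw [← map_mul, flip_mul_flip, map_one], ?_⟩
  · intro h
    obtain ⟨x⟩ : Nonempty X := inferInstance
    have h1 := permAut_of (flip e0) (e0 (x, 1))
    rw [h, flip_apply] at h1
    have h2 := e0.injective (FreeGroup.of_injective h1)
    simp at h2
  · rw [eq_top_iff]
    intro φ _
    set N := Subgroup.normalClosure ({permAut (flip e0)} : Set (MulAut (FreeGroup X)))
    have h0 : permAut (flip e0) ∈ N := Subgroup.subset_normalClosure rfl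
    obtain ⟨δ, a, b, ha, hb, hδa, hδb⟩ := exists_factor φ
    have h1 : δ ∈ N := stab_mem e0 N h0 δ a ha hδa
    have h2 : φ⁻¹ * δ ∈ N := stab_mem e0 N h0 _ b hb (fun x => by
      rw [MulAut.mul_apply, hδb, MulAut.inv_apply_self])
    have : φ = δ * (φ⁻¹ * δ)⁻¹ := by group
    rw [this]
    exact N.mul_mem h1 (N.inv_mem h2)

/-- Let `G` be a group that is free on an infinite basis `b`.  Some automorphism of order two
permutes the elements of `b`, and its conjugates generate the whole automorphism group. -/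
theorem result (G : Type u) [Group G] (ι : Type) [Infinite ι] (b : FreeGroupBasis ι G) :
    ∃ (σ : MulAut G) (π : Equiv.Perm ι), (∀ i, σ (b i) = b (π i)) ∧ orderOf σ = 2 ∧
      Subgroup.closure {τ : MulAut G | ∃ h : MulAut G, τ = h * σ * h⁻¹} = ⊤ := by
  obtain ⟨π, h1, h2, h3⟩ := aux ι
  let e : MulAut (FreeGroup ι) ≃* MulAut G := MulAut.congr b.repr.symm
  refine ⟨e (permAut π), π, fun i => ?_, ?_, ?_⟩
  · have hb : ∀ j, b j = b.repr.symm (FreeGroup.of j) := fun _ => rfl
    simp [e, hb]
  · refine orderOf_eq_prime ?_ fun c => h1 (e.injective (c.trans (map_one e).symm))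
    rw [pow_two, ← map_mul, h2, map_one]
  · rw [eq_top_iff]
    intro φ _
    obtain ⟨ψ, rfl⟩ := e.surjective φ
    have h4 : Subgroup.normalClosure ({permAut π} : Set (MulAut (FreeGroup ι))) ≤
        (Subgroup.closure {τ : MulAut G | ∃ h : MulAut G, τ = h * e (permAut π) * h⁻¹}).comap
          e.toMonoidHom := by
      refine (Subgroup.closure_le _).2 fun x hx => ?_
      obtain ⟨a, ha, hc⟩ := Group.mem_conjugatesOfSet_iff.1 hx
      obtain rfl := Set.mem_singleton_iff.1 ha
      obtain ⟨c, rfl⟩ := isConj_iff.1 hc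
      exact Subgroup.subset_closure ⟨e c, by simp⟩
    exact h4 (h3 ▸ Subgroup.mem_top ψ)

end Pool.Agent.Results.MP_e3e9dd_al.BasisInvolution
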